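import Mathlib

namespace Pool.Agent.Work.MP_193ce1_co

/-- certificate tree -/
inductive T
  | nil : T
  | leaf (len code : ℕ) (rest : T) : T
  | node (p q : ℕ) (kids rest : T) : T

def bit (E a b : ℕ) : Bool := E.testBit (32 * a + b)

def addE (E a b : ℕ) : ℕ := E ||| 2 ^ (32 * a + b) ||| 2 ^ (32 * b + a)

def addW (E p q w : ℕ) : ℕ := addE (addE E p w) q w

def dec : ℕ → ℕ → List ℕ
  | 0, _ => []
  | len + 1, code => code % 32 :: dec len (code / 32)

def chainOk (E : ℕ) : List ℕ → Bool
  | [] => true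
  | [_] => true
  | a :: b :: l => bit E a b && chainOk E (b :: l)

def ndOk : List ℕ → Bool
  | [] => true
  | a :: l => l.all (fun b => a != b) && ndOk l

def okPath (lo hi e n E len code : ℕ) : Bool :=
  decide (lo ≤ len) && decide (len ≤ hi) && ((dec len code).head? == some 0) &&
    ((dec len code).getLast? == some e) && chainOk E (dec len code) && ndOk (dec len code) &&
    (dec len code).all (fun a => decide (a < n))

def nxt (n w : ℕ) : ℕ := if w = n then n + 1 else n

def chk (lo hi e : ℕ) : T → ℕ → ℕ → ℕ → ℕ → ℕ → Bool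
  | .nil, _, _, n, _, w => decide (n < w)
  | .leaf len code rest, p, q, n, E, w =>
      (w == p || w == q || okPath lo hi e (nxt n w) (addW E p q w) len code) &&
        chk lo hi e rest p q n E (w + 1)
  | .node p' q' kids rest, p, q, n, E, w =>
      (decide (p' < nxt n w) && decide (q' < nxt n w) && (p' != q') && decide (nxt n w ≤ 30) &&
        chk lo hi e kids p' q' (nxt n w) (addW E p q w) 0) &&
        chk lo hi e rest p q n E (w + 1)

variable {V : Type} (G : SimpleGraph V)

/-- a path given as a list -/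
def LP (u v : V) (l : List V) : Prop :=
  l.head? = some u ∧ l.getLast? = some v ∧ l.Nodup ∧ l.IsChain G.Adj

def Good (u v : V) (lo hi : ℕ) : Prop :=
  ∃ l, LP G u v l ∧ lo ≤ l.length ∧ l.length ≤ hi

structure Valid (u v : V) (e n E : ℕ) (f : ℕ → V) : Prop where
  inj : ∀ a < n, ∀ b < n, f a = f b → a = b
  edge : ∀ a < 32, ∀ b < 32, bit E a b = true → a < n ∧ b < n ∧ G.Adj (f a) (f b)
  le : n ≤ 31
  he : e < n
  h0 : f 0 = u
  hv : f e = v

lemma dec_length (len code : ℕ) : (dec len code).length = len := by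
  induction len generalizing code with
  | zero => rfl
  | succ k ih => simp [dec, ih]

lemma dec_lt (len code : ℕ) : ∀ a ∈ dec len code, a < 32 := by
  induction len generalizing code with
  | zero => simp [dec]
  | succ k ih =>
    intro a ha
    simp only [dec, List.mem_cons] at ha
    rcases ha with rfl | ha
    · exact Nat.mod_lt _ (by norm_num)
    · exact ih _ _ ha

lemma ndOk_nodup : ∀ l : List ℕ, ndOk l = true → l.Nodup
  | [], _ => List.nodup_nil
  | a :: l, h => by
    simp only [ndOk, Bool.and_eq_true, List.all_eq_true, bne_iff_ne] at h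
    refine List.nodup_cons.2 ⟨fun hm => h.1 a hm rfl, ndOk_nodup l h.2⟩

lemma chainOk_chain (E : ℕ) : ∀ l : List ℕ, chainOk E l = true →
    l.IsChain (fun a b => bit E a b = true)
  | [], _ => List.IsChain.nil
  | [a], _ => List.IsChain.singleton a
  | a :: b :: l, h => by
    simp only [chainOk, Bool.and_eq_true] at h
    exact List.IsChain.cons_cons h.1 (chainOk_chain E (b :: l) h.2)

lemma bit_addE {E a b x y : ℕ} (ha : a < 32) (hb : b < 32) (_hx : x < 32) (hy : y < 32)
    (h : bit (addE E a b) x y = true) : bit E x y = true ∨ (x = a ∧ y = b) ∨ (x = b ∧ y = a) := by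
  unfold bit addE at *
  simp only [Nat.testBit_or, Bool.or_eq_true, Nat.testBit_two_pow, decide_eq_true_eq] at h
  rcases h with (h | h) | h
  · exact Or.inl h
  · right; left; omega
  · right; right; omega

variable {G}

lemma okPath_sound {u v : V} {lo hi e n E len code : ℕ} {f : ℕ → V}
    (hV : Valid G u v e n E f) (h : okPath lo hi e n E len code = true) : Good G u v lo hi := by
  simp only [okPath, Bool.and_eq_true, decide_eq_true_eq, beq_iff_eq, List.all_eq_true] at h
  obtain ⟨⟨⟨⟨⟨⟨h1, h2⟩, h3⟩, h4⟩, h5⟩, h6⟩, h7⟩ := h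
  refine ⟨(dec len code).map f, ⟨?_, ?_, ?_, ?_⟩, ?_, ?_⟩
  · rw [List.head?_map, h3]; simp [hV.h0]
  · rw [List.getLast?_map, h4]; simp [hV.hv]
  · exact List.Nodup.map_on (fun a ha b hb hab => hV.inj a (h7 a ha) b (h7 b hb) hab)
      (ndOk_nodup _ h6)
  · rw [List.isChain_map]
    refine List.IsChain.imp_of_mem_imp ?_ (chainOk_chain E _ h5)
    intro a b ha hb hab
    exact (hV.edge a (dec_lt _ _ a ha) b (dec_lt _ _ b hb) hab).2.2
  · simpa [dec_length] using h1
  · simpa [dec_length] using h2

/-- the candidate `z` is not among the vertices already tried -/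
def Cand (n w : ℕ) (f : ℕ → V) (z : V) : Prop :=
  w ≤ n ∧ ∀ a < w, a < n → f a ≠ z

lemma step_valid {u v : V} {e n E p q w : ℕ} {f : ℕ → V} {z : V}
    (hV : Valid G u v e n E f) (hp : p < n) (hq : q < n) (hpz : G.Adj (f p) z)
    (hqz : G.Adj (f q) z) (hc : Cand n w f z) (hn : nxt n w ≤ 31) :
    Cand n (w + 1) f z ∨
      (w ≠ p ∧ w ≠ q ∧ ∃ f', Valid G u v e (nxt n w) (addW E p q w) f') := by
  classical
  have hle := hV.le
  by_cases hw : w = n
  · right
    subst hw
    have hnx : nxt w w = w + 1 := by simp [nxt]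
    rw [hnx] at hn ⊢
    have hupd : ∀ a < w, Function.update f w z a = f a := fun a ha =>
      Function.update_of_ne (by omega) _ _
    have hself : Function.update f w z w = z := Function.update_self _ _ _
    refine ⟨by omega, by omega, Function.update f w z, ?_, ?_, hn, ?_, ?_, ?_⟩
    · intro a ha b hb hab
      rcases Nat.lt_succ_iff_lt_or_eq.1 ha with ha | rfl <;>
        rcases Nat.lt_succ_iff_lt_or_eq.1 hb with hb | rfl
      · rw [hupd a ha, hupd b hb] at hab; exact hV.inj a ha b hb hab
      · rw [hupd a ha, hself] at hab; exact absurd hab (hc.2 a ha ha)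
      · rw [hupd b hb, hself] at hab; exact absurd hab.symm (hc.2 b hb hb)
      · rfl
    · intro a ha b hb hab
      rcases bit_addE (by omega) (by omega) ha hb hab with hab | ⟨rfl, rfl⟩ | ⟨rfl, rfl⟩
      · rcases bit_addE (by omega) (by omega) ha hb hab with hab | ⟨rfl, rfl⟩ | ⟨rfl, rfl⟩
        · obtain ⟨h1, h2, h3⟩ := hV.edge a ha b hb hab
          refine ⟨by omega, by omega, ?_⟩
          rw [hupd a h1, hupd b h2]; exact h3
        · refine ⟨by omega, by omega, ?_⟩
          rw [hupd a hp, hself]; exact hpz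
        · refine ⟨by omega, by omega, ?_⟩
          rw [hupd b hp, hself]; exact hpz.symm
      · refine ⟨by omega, by omega, ?_⟩
        rw [hupd a hq, hself]; exact hqz
      · refine ⟨by omega, by omega, ?_⟩
        rw [hupd b hq, hself]; exact hqz.symm
    · have := hV.he; omega
    · rw [hupd 0 (by omega)]; exact hV.h0
    · rw [hupd e hV.he]; exact hV.hv
  · have hwn : w < n := lt_of_le_of_ne hc.1 hw
    by_cases hz : f w = z
    · right
      have hnx : nxt n w = n := by simp [nxt, hw]
      rw [hnx]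
      refine ⟨?_, ?_, f, hV.inj, ?_, hV.le, hV.he, hV.h0, hV.hv⟩
      · rintro rfl; rw [hz] at hpz; exact G.loopless.irrefl _ hpz
      · rintro rfl; rw [hz] at hqz; exact G.loopless.irrefl _ hqz
      · intro a ha b hb hab
        rcases bit_addE (by omega) (by omega) ha hb hab with hab | ⟨rfl, rfl⟩ | ⟨rfl, rfl⟩
        · rcases bit_addE (by omega) (by omega) ha hb hab with hab | ⟨rfl, rfl⟩ | ⟨rfl, rfl⟩
          · exact hV.edge a ha b hb hab
          · exact ⟨hp, hwn, by rw [hz]; exact hpz⟩
          · exact ⟨hwn, hp, by rw [hz]; exact hpz.symm⟩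
        · exact ⟨hq, hwn, by rw [hz]; exact hqz⟩
        · exact ⟨hwn, hq, by rw [hz]; exact hqz.symm⟩
    · left
      refine ⟨hwn, fun a ha han => ?_⟩
      rcases Nat.lt_succ_iff_lt_or_eq.1 ha with ha | rfl
      · exact hc.2 a ha han
      · exact hz

theorem chk_sound (h3 : ∀ x y : V, x ≠ y → ∃ z, G.Adj x z ∧ G.Adj y z) {u v : V} {lo hi e : ℕ} :
    ∀ (t : T) (p q n E w : ℕ) (f : ℕ → V) (z : V), chk lo hi e t p q n E w = true →
      Valid G u v e n E f → n ≤ 30 → p < n → q < n → G.Adj (f p) z → G.Adj (f q) z →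
      Cand n w f z → Good G u v lo hi := by
  intro t
  induction t with
  | nil =>
    intro p q n E w f z h _ _ _ _ _ _ hc
    simp only [chk, decide_eq_true_eq] at h
    exact absurd hc.1 (by omega)
  | leaf len code rest ih =>
    intro p q n E w f z h hV hn hp hq hpz hqz hc
    simp only [chk, Bool.and_eq_true, Bool.or_eq_true, beq_iff_eq] at h
    have hnx : nxt n w ≤ 31 := by unfold nxt; split_ifs <;> omega
    rcases step_valid hV hp hq hpz hqz hc hnx with hc' | ⟨hwp, hwq, f', hV'⟩
    · exact ih p q n E (w + 1) f z h.2 hV hn hp hq hpz hqz hc'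
    · rcases h.1 with (h1 | h1) | h1
      · exact absurd h1 hwp
      · exact absurd h1 hwq
      · exact okPath_sound hV' h1
  | node p' q' kids rest ihk ihr =>
    intro p q n E w f z h hV hn hp hq hpz hqz hc
    simp only [chk, Bool.and_eq_true, decide_eq_true_eq, bne_iff_ne] at h
    obtain ⟨⟨⟨⟨⟨h1, h2⟩, h3'⟩, h4⟩, h5⟩, h6⟩ := h
    rcases step_valid hV hp hq hpz hqz hc (by omega) with hc' | ⟨-, -, f', hV'⟩
    · exact ihr p q n E (w + 1) f z h6 hV hn hp hq hpz hqz hc'
    · obtain ⟨z', hz1, hz2⟩ := h3 (f' p') (f' q') (fun hh => h3' (hV'.inj _ h1 _ h2 hh))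
      exact ihk p' q' _ _ 0 f' z' h5 hV' h4 h1 h2 hz1 hz2 ⟨Nat.zero_le _, fun a ha => absurd ha (by omega)⟩

/-- edges of the starting configuration: consecutive indices below `m`, except at `gap` -/
def pathE (gap : ℕ) : ℕ → ℕ
  | 0 => 0
  | k + 1 => if k = gap then pathE gap k else addE (pathE gap k) k (k + 1)

lemma bit_pathE {gap : ℕ} : ∀ k, k ≤ 30 → ∀ a < 32, ∀ b < 32, bit (pathE gap k) a b = true →
    (b = a + 1 ∧ a ≠ gap ∧ b ≤ k) ∨ (a = b + 1 ∧ b ≠ gap ∧ a ≤ k)
  | 0, _, a, _, b, _, h => by simp [pathE, bit] at h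
  | k + 1, hk, a, ha, b, hb, h => by
    unfold pathE at h
    split_ifs at h with hg
    · have := bit_pathE k (by omega) a ha b hb h
      omega
    · rcases bit_addE (by omega) (by omega) ha hb h with h | h | h
      · have := bit_pathE k (by omega) a ha b hb h
        omega
      · omega
      · omega

def top (lo hi m gap p q : ℕ) (t : T) : Bool :=
  decide (p < m) && decide (q < m) && (p != q) && decide (m ≤ 30) && decide (1 ≤ m) &&
    chk lo hi (m - 1) t p q m (pathE gap (m - 1)) 0

theorem top_sound (h3 : ∀ x y : V, x ≠ y → ∃ z, G.Adj x z ∧ G.Adj y z) {u v : V}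
    {lo hi m gap p q : ℕ} {t : T} (h : top lo hi m gap p q t = true) (l : List V)
    (hl : LP G u v l) (g : ℕ → ℕ) (hg0 : g 0 = 0) (hgl : g (m - 1) + 1 = l.length)
    (hgm : ∀ a b, a < b → b < m → g a < g b)
    (hgs : ∀ a, a + 1 < m → a ≠ gap → g (a + 1) = g a + 1) : Good G u v lo hi := by
  simp only [top, Bool.and_eq_true, decide_eq_true_eq, bne_iff_ne] at h
  obtain ⟨⟨⟨⟨⟨h1, h2⟩, h3'⟩, h4⟩, h5⟩, h6⟩ := h
  obtain ⟨hh, hla, hnd, hch⟩ := hl
  have hlt : ∀ a < m, g a < l.length := by
    intro a ha
    rcases Nat.lt_or_ge a (m - 1) with h | h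
    · have := hgm a (m - 1) h (by omega); omega
    · have : a = m - 1 := by omega
      subst this; omega
  have hget : ∀ a (ha : a < m), l.getD (g a) u = l[g a]'(hlt a ha) := fun a ha =>
    List.getD_eq_getElem _ _ (hlt a ha)
  have hadj : ∀ a, a + 1 < m → a ≠ gap → G.Adj (l.getD (g a) u) (l.getD (g (a + 1)) u) := by
    intro a ha hne
    rw [hget a (by omega), hget (a + 1) ha]
    have e1 := hgs a ha hne
    have := hch.getElem (g a) (by have := hlt (a + 1) ha; omega)
    simpa only [e1] using this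
  have hV : Valid G u v (m - 1) m (pathE gap (m - 1)) (fun a => l.getD (g a) u) := by
    refine ⟨?_, ?_, by omega, by omega, ?_, ?_⟩
    · intro a ha b hb hab
      simp only [hget a ha, hget b hb] at hab
      have := (List.Nodup.getElem_inj_iff hnd).1 hab
      rcases lt_trichotomy a b with h | h | h
      · have := hgm a b h hb; omega
      · exact h
      · have := hgm b a h ha; omega
    · intro a ha b hb hab
      rcases bit_pathE (m - 1) (by omega) a ha b hb hab with ⟨rfl, hne, hk⟩ | ⟨rfl, hne, hk⟩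
      · exact ⟨by omega, by omega, hadj a (by omega) hne⟩
      · exact ⟨by omega, by omega, (hadj b (by omega) hne).symm⟩
    · simp only [hg0]
      cases l with
      | nil => simp
      | cons x l => simpa using hh
    · show l.getD (g (m - 1)) u = v
      rw [hget (m - 1) (by omega)]
      rw [List.getLast?_eq_getElem?] at hla
      have e2 : l.length - 1 = g (m - 1) := by omega
      rw [e2, List.getElem?_eq_getElem (hlt _ (by omega))] at hla
      exact Option.some.inj hla
  obtain ⟨z, hz1, hz2⟩ := h3 (l.getD (g p) u) (l.getD (g q) u)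
    (fun hh => h3' (hV.inj _ h1 _ h2 hh))
  exact chk_sound h3 t p q m _ 0 _ z h6 hV h4 h1 h2 hz1 hz2
    ⟨Nat.zero_le _, fun a ha => absurd ha (by omega)⟩

end Pool.Agent.Work.MP_193ce1_co
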