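import Pool.Agent.Work.MP_193ce1_co.CertA
import Pool.Agent.Work.MP_193ce1_co.CertB

namespace Pool.Agent.Work.MP_193ce1_co

variable {V : Type} {G : SimpleGraph V}

theorem shorten (h3 : ∀ x y : V, x ≠ y → ∃ z, G.Adj x z ∧ G.Adj y z) {u v : V} (l : List V)
    (hl : LP G u v l) (h7 : 7 ≤ l.length) :
    Good G u v (min (l.length - 1) 12) (l.length - 1) := by
  have key : ∀ {lo hi m p q : ℕ} {t : T}, top lo hi m 31 p q t = true → l.length = m → 1 ≤ m →
      Good G u v lo hi := by
    intro lo hi m p q t h hm h1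
    exact top_sound h3 h l hl id rfl (by simp; omega) (fun a b hab _ => hab) (fun a _ _ => rfl)
  rcases Nat.lt_or_ge l.length 24 with h | h
  · generalize hm : l.length = m at h h7 key
    interval_cases m
    · exact key c7 rfl (by norm_num)
    · exact key c8 rfl (by norm_num)
    · exact key c9 rfl (by norm_num)
    · exact key c10 rfl (by norm_num)
    · exact key c11 rfl (by norm_num)
    · exact key c12 rfl (by norm_num)
    · exact key c13 rfl (by norm_num)
    · exact key c14 rfl (by norm_num)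
    · exact key c15 rfl (by norm_num)
    · exact key c16 rfl (by norm_num)
    · exact key c17 rfl (by norm_num)
    · exact key c18 rfl (by norm_num)
    · exact key c19 rfl (by norm_num)
    · exact key c20 rfl (by norm_num)
    · exact key c21 rfl (by norm_num)
    · exact key c22 rfl (by norm_num)
    · exact key c23 rfl (by norm_num)
  · obtain ⟨l', h1, h2, h3'⟩ := top_sound h3 cg l hl
      (fun a => if a ≤ 10 then a else l.length - 22 + a) (by simp)
      (by simp; omega)
      (fun a b hab hb => by split_ifs <;> omega)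
      (fun a ha hne => by split_ifs <;> omega)
    exact ⟨l', h1, by omega, by omega⟩

theorem down (h3 : ∀ x y : V, x ≠ y → ∃ z, G.Adj x z ∧ G.Adj y z) {u v : V} {j : ℕ}
    (h6 : 6 ≤ j) (h12 : j ≤ 12) :
    ∀ L : ℕ, ∀ l : List V, LP G u v l → l.length = L → j ≤ L → ∃ l', LP G u v l' ∧ l'.length = j := by
  intro L
  induction L using Nat.strong_induction_on with
  | _ L ih =>
    intro l hl hL hj
    rcases Nat.eq_or_lt_of_le hj with h | h
    · exact ⟨l, hl, by omega⟩
    · obtain ⟨l', h1, h2, h3'⟩ := shorten h3 l hl (by omega)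
      exact ih l'.length (by omega) l' h1 rfl (by omega)

theorem lp_of_walk {u v : V} (p : G.Walk u v) (hp : p.IsPath) : LP G u v p.support := by
  refine ⟨?_, ?_, hp.support_nodup, p.isChain_adj_support⟩
  · cases p <;> simp
  · rw [List.getLast?_eq_some_getLast p.support_ne_nil]; simp

theorem walk_of_lp {u v : V} {l : List V} (hl : LP G u v l) :
    ∃ p : G.Walk u v, p.IsPath ∧ p.support = l := by
  obtain ⟨h1, h2, h3, h4⟩ := hl
  have hne : l ≠ [] := by rintro rfl; simp at h1
  have e1 : l.head hne = u := by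
    rw [List.head?_eq_some_head hne] at h1; exact Option.some.inj h1
  have e2 : l.getLast hne = v := by
    rw [List.getLast?_eq_some_getLast hne] at h2; exact Option.some.inj h2
  refine ⟨(SimpleGraph.Walk.ofSupport l hne h4).copy e1 e2, ?_, ?_⟩
  · rw [SimpleGraph.Walk.isPath_def]; simpa [SimpleGraph.Walk.support_ofSupport] using h3
  · simp [SimpleGraph.Walk.support_ofSupport]

theorem common_of_three
    (h : ∀ u v : V, u ≠ v → ∃ p : G.Walk u v, p.IsPath ∧ p.support.length = 3) :
    ∀ x y : V, x ≠ y → ∃ z, G.Adj x z ∧ G.Adj y z := by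
  intro x y hxy
  obtain ⟨p, -, hp⟩ := h x y hxy
  match p, hp with
  | .cons h1 (.cons h2 .nil), _ => exact ⟨_, h1, h2.symm⟩
  | .nil, hp => simp at hp
  | .cons _ .nil, hp => simp at hp
  | .cons _ (.cons _ (.cons _ q)), hp => simp at hp

theorem main {i j : ℕ}
    (h3 : ∀ u v : V, u ≠ v → ∃ p : G.Walk u v, p.IsPath ∧ p.support.length = 3)
    (hi : ∀ u v : V, u ≠ v → ∃ p : G.Walk u v, p.IsPath ∧ p.support.length = i)
    (h6 : 6 ≤ j) (hji : j ≤ i) (h12 : j ≤ 12) :
    ∀ u v : V, u ≠ v → ∃ p : G.Walk u v, p.IsPath ∧ p.support.length = j := by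
  intro u v huv
  obtain ⟨p, hp, hl⟩ := hi u v huv
  obtain ⟨l', h1, h2⟩ := down (common_of_three h3) h6 h12 i p.support (lp_of_walk p hp) hl hji
  obtain ⟨q, hq, hs⟩ := walk_of_lp h1
  exact ⟨q, hq, by rw [hs, h2]⟩

end Pool.Agent.Work.MP_193ce1_co
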